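import Pool.Agent.Q249.SF.Stm

set_option autoImplicit false

/-!
Project SF, job AT3: the bounds for the coefficients.
-/

namespace Q275.SF

open MeasureTheory Real Set Filter Topology Q249.SF
open scoped FourierTransform SchwartzMap

/-- Cauchy-Schwarz. -/
theorem cs {μ : Measure ℝ} {f g : ℝ → ℂ} (hf : MemLp f 2 μ) (hg : MemLp g 2 μ) :
    (∫ a, ‖f a‖ * ‖g a‖ ∂μ) ^ 2 ≤ (∫ a, ‖f a‖ ^ 2 ∂μ) * ∫ a, ‖g a‖ ^ 2 ∂μ := by
  have h2 : ENNReal.ofReal 2 = 2 := by norm_num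
  have h := integral_mul_norm_le_Lp_mul_Lq (μ := μ) (f := f) (g := g) Real.HolderConjugate.two_two
    (by rw [h2]; exact hf) (by rw [h2]; exact hg)
  simp only [Real.rpow_two] at h
  rw [← Real.sqrt_eq_rpow, ← Real.sqrt_eq_rpow] at h
  have h0 : 0 ≤ ∫ a, ‖f a‖ * ‖g a‖ ∂μ := integral_nonneg fun a => by positivity
  have hf0 : 0 ≤ ∫ a, ‖f a‖ ^ 2 ∂μ := integral_nonneg fun a => by positivity
  have hg0 : 0 ≤ ∫ a, ‖g a‖ ^ 2 ∂μ := integral_nonneg fun a => by positivity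
  calc (∫ a, ‖f a‖ * ‖g a‖ ∂μ) ^ 2
      ≤ (Real.sqrt (∫ a, ‖f a‖ ^ 2 ∂μ) * Real.sqrt (∫ a, ‖g a‖ ^ 2 ∂μ)) ^ 2 :=
        pow_le_pow_left₀ h0 h 2
    _ = _ := by rw [mul_pow, Real.sq_sqrt hf0, Real.sq_sqrt hg0]

section

variable {χ : ℝ → ℝ} (hs : ContDiff ℝ (⊤ : ℕ∞) χ) (h0 : ∀ x, 1 / 4 ≤ |x| → χ x = 0)

/-- The window as a Schwartz function, translated and modulated. -/
noncomputable def psi (hs : ContDiff ℝ (⊤ : ℕ∞) χ) (h0 : ∀ x, 1 / 4 ≤ |x| → χ x = 0) (b l : ℝ) :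
    𝓢(ℝ, ℂ) :=
  HasCompactSupport.toSchwartzMap
    (f := fun y : ℝ => (χ (y - b) : ℂ) * Complex.exp (-2 * π * Complex.I * l * y))
    (HasCompactSupport.intro (isCompact_Icc (a := b - 1 / 4) (b := b + 1 / 4)) (by
      intro x hx
      have h1 : 1 / 4 ≤ |x - b| := by
        by_contra hcon
        rw [not_le, abs_lt] at hcon
        exact hx ⟨by linarith, by linarith⟩
      simp [h0 _ h1]))
    (by
      refine ContDiff.mul ?_ ?_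
      · exact Complex.ofRealCLM.contDiff.comp (hs.comp (contDiff_id.sub contDiff_const))
      · refine Complex.contDiff_exp.comp ?_
        exact contDiff_const.mul Complex.ofRealCLM.contDiff)

theorem psi_apply (b l y : ℝ) :
    psi hs h0 b l y = (χ (y - b) : ℂ) * Complex.exp (-2 * π * Complex.I * l * y) := rfl

theorem hin (u v : ℝ) : inner ℝ u v = v * u := by
  rw [RCLike.inner_apply, conj_trivial]

theorem norm_fourierInv_psi (b l ξ : ℝ) :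
    ‖(𝓕⁻ (psi hs h0 b l) : 𝓢(ℝ, ℂ)) ξ‖ = ‖(𝓕⁻ (psi hs h0 0 0) : 𝓢(ℝ, ℂ)) (ξ - l)‖ := by
  rw [SchwartzMap.fourierInv_coe, SchwartzMap.fourierInv_coe, Real.fourierInv_eq',
    Real.fourierInv_eq']
  have e1 : ∫ v : ℝ, Complex.exp (↑(2 * π * inner ℝ v ξ) * Complex.I) • psi hs h0 b l v =
      ∫ u : ℝ, Complex.exp (↑(2 * π * (b * (ξ - l))) * Complex.I) *
        (Complex.exp (↑(2 * π * inner ℝ u (ξ - l)) * Complex.I) • psi hs h0 0 0 u) := by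
    rw [← integral_add_right_eq_self _ b]
    refine integral_congr_ae (Eventually.of_forall fun u => ?_)
    simp only [psi_apply, smul_eq_mul, add_sub_cancel_right, sub_zero]
    have e2 : Complex.exp (↑(2 * π * inner ℝ (u + b) ξ) * Complex.I) *
        (↑(χ u) * Complex.exp (-2 * π * Complex.I * l * ↑(u + b))) =
        ↑(χ u) * (Complex.exp (↑(2 * π * inner ℝ (u + b) ξ) * Complex.I) *
          Complex.exp (-2 * π * Complex.I * l * ↑(u + b))) := by ring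
    have e3 : Complex.exp (↑(2 * π * (b * (ξ - l))) * Complex.I) *
        (Complex.exp (↑(2 * π * inner ℝ u (ξ - l)) * Complex.I) *
          (↑(χ u) * Complex.exp (-2 * π * Complex.I * ↑(0 : ℝ) * ↑u))) =
        ↑(χ u) * (Complex.exp (↑(2 * π * (b * (ξ - l))) * Complex.I) *
        Complex.exp (↑(2 * π * inner ℝ u (ξ - l)) * Complex.I) *
          Complex.exp (-2 * π * Complex.I * ↑(0 : ℝ) * ↑u)) := by ring
    rw [e2, e3, ← Complex.exp_add, ← Complex.exp_add, ← Complex.exp_add]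
    congr 2
    rw [hin, hin]
    push_cast
    ring
  rw [e1, integral_const_mul, norm_mul, Complex.norm_exp_ofReal_mul_I, one_mul]

theorem norm_psi (b l y : ℝ) : ‖psi hs h0 b l y‖ = |χ (y - b)| := by
  rw [psi_apply, norm_mul, Complex.norm_real, Real.norm_eq_abs]
  have : (-2 * π * Complex.I * l * y : ℂ) = ((-2 * π * l * y : ℝ) : ℂ) * Complex.I := by
    push_cast; ring
  rw [this, Complex.norm_exp_ofReal_mul_I, mul_one]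

theorem part1 (f : 𝓢(ℝ, ℂ)) (k : ℤ) (l : ℝ) (hk : 2 ≤ |k|) :
    ‖∫ y : ℝ, f y * psi hs h0 (k / 4) l y‖ ^ 2 ≤
      (∫ y : ℝ, ‖psi hs h0 0 0 y‖ ^ 2) * ∫ t in {t : ℝ | |(k : ℝ)| / 8 ≤ |t|}, ‖f t‖ ^ 2 := by
  set S : Set ℝ := {t : ℝ | |(k : ℝ)| / 8 ≤ |t|} with hS
  have hSm : MeasurableSet S := (isClosed_le continuous_const continuous_abs).measurableSet
  have hk2 : (2 : ℝ) ≤ |(k : ℝ)| := by
    have : ((2 : ℤ) : ℝ) ≤ ((|k| : ℤ) : ℝ) := by exact_mod_cast hk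
    rw [Int.cast_abs] at this
    exact_mod_cast this
  have h1 : ‖∫ y : ℝ, f y * psi hs h0 (k / 4) l y‖ ≤ ∫ y in S, ‖f y‖ * ‖psi hs h0 (k / 4) l y‖ := by
    refine (norm_integral_le_integral_norm _).trans (le_of_eq ?_)
    rw [← integral_indicator hSm]
    refine integral_congr_ae (Eventually.of_forall fun y => ?_)
    by_cases hy : y ∈ S
    · simp only [Set.indicator_of_mem hy, norm_mul]
    · simp only [Set.indicator_of_notMem hy, norm_mul]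
      have hy' : |y| < |(k : ℝ)| / 8 := not_le.1 hy
      have h2 : 1 / 4 ≤ |y - k / 4| := by
        have h3 : |(k : ℝ) / 4| - |y| ≤ |(k : ℝ) / 4 - y| := abs_sub_abs_le_abs_sub _ _
        rw [abs_sub_comm] at h3
        rw [abs_div, abs_of_pos (by norm_num : (0 : ℝ) < 4)] at h3
        linarith
      rw [norm_psi, h0 _ h2]
      simp
  have h3 := cs (μ := volume.restrict S) (f := f) (g := psi hs h0 (k / 4) l)
    ((f.memLp 2).restrict S) (((psi hs h0 (k / 4) l).memLp 2).restrict S)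
  have h4 : ∫ a in S, ‖psi hs h0 (k / 4) l a‖ ^ 2 ≤ ∫ y : ℝ, ‖psi hs h0 0 0 y‖ ^ 2 := by
    have h5 : ∫ a in S, ‖psi hs h0 (k / 4) l a‖ ^ 2 ≤ ∫ a, ‖psi hs h0 (k / 4) l a‖ ^ 2 :=
      setIntegral_le_integral
        ((memLp_two_iff_integrable_sq_norm
          (psi hs h0 (k / 4) l).continuous.aestronglyMeasurable).1 ((psi hs h0 (k / 4) l).memLp 2))
        (Eventually.of_forall fun a => by positivity)
    refine h5.trans (le_of_eq ?_)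
    simp only [norm_psi, sub_zero]
    exact integral_sub_right_eq_self (fun y => |χ y| ^ 2) _
  have h6 : 0 ≤ ∫ a in S, ‖f a‖ ^ 2 := integral_nonneg fun a => by positivity
  calc ‖∫ y : ℝ, f y * psi hs h0 (k / 4) l y‖ ^ 2
      ≤ (∫ y in S, ‖f y‖ * ‖psi hs h0 (k / 4) l y‖) ^ 2 := pow_le_pow_left₀ (norm_nonneg _) h1 2
    _ ≤ (∫ a in S, ‖f a‖ ^ 2) * ∫ a in S, ‖psi hs h0 (k / 4) l a‖ ^ 2 := h3
    _ ≤ (∫ a in S, ‖f a‖ ^ 2) * ∫ y : ℝ, ‖psi hs h0 0 0 y‖ ^ 2 :=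
        mul_le_mul_of_nonneg_left h4 h6
    _ = _ := mul_comm _ _

theorem coef_eq (f : 𝓢(ℝ, ℂ)) (b l : ℝ) :
    ∫ y : ℝ, f y * psi hs h0 b l y =
      ∫ ξ : ℝ, (𝓕 f : 𝓢(ℝ, ℂ)) ξ * (𝓕⁻ (psi hs h0 b l) : 𝓢(ℝ, ℂ)) ξ := by
  rw [SchwartzMap.integral_fourier_mul_eq, FourierTransform.fourier_fourierInv_eq]

/-- Decay of a Schwartz function. -/
theorem decay (H : 𝓢(ℝ, ℂ)) (r : ℕ) : ∃ C : ℝ, 0 ≤ C ∧ ∀ v, (1 + |v|) ^ (r + 1) * ‖H v‖ ≤ C := by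
  refine ⟨2 ^ (r + 1) * ((Finset.Iic ((r + 1, 0) : ℕ × ℕ)).sup (fun m =>
    SchwartzMap.seminorm ℂ m.1 m.2)) H, by positivity, fun v => ?_⟩
  have h := SchwartzMap.one_add_le_sup_seminorm_apply (𝕜 := ℂ) (m := (r + 1, 0)) (k := r + 1)
    (n := 0) le_rfl le_rfl H v
  simpa using h

theorem part2 (r : ℕ) : ∃ C : ℝ, 0 ≤ C ∧ ∀ (f : 𝓢(ℝ, ℂ)) (b : ℝ) (l : ℤ),
    ‖∫ y : ℝ, f y * psi hs h0 b l y‖ ^ 2 ≤
    C * ((∫ s in {s : ℝ | |(l : ℝ)| / 2 ≤ |s|}, ‖(𝓕 f : 𝓢(ℝ, ℂ)) s‖ ^ 2) +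
      (1 / (1 + |(l : ℝ)|)) ^ (2 * r) * ∫ t, ‖f t‖ ^ 2) := by
  set H : 𝓢(ℝ, ℂ) := 𝓕⁻ (psi hs h0 0 0) with hH
  obtain ⟨C₁, hC₁, hdec⟩ := decay H r
  set J : ℝ := ∫ v : ℝ, (1 + ‖v‖) ^ (-2 : ℝ) with hJ
  have hJi : Integrable (fun v : ℝ => (1 + ‖v‖) ^ (-2 : ℝ)) :=
    integrable_one_add_norm (by simp)
  have hJ0 : 0 ≤ J := integral_nonneg fun v => by positivity
  have hsqi : ∀ g : 𝓢(ℝ, ℂ), Integrable (fun x => ‖g x‖ ^ 2) := fun g =>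
    (memLp_two_iff_integrable_sq_norm g.continuous.aestronglyMeasurable).1 (g.memLp 2)
  have hE0 : 0 ≤ ∫ v, ‖H v‖ ^ 2 := integral_nonneg fun a => by positivity
  refine ⟨2 * (∫ v, ‖H v‖ ^ 2) + 2 * (C₁ ^ 2 * 2 ^ (2 * r) * J), by positivity, ?_⟩
  intro f b l
  set S : Set ℝ := {s : ℝ | |(l : ℝ)| / 2 ≤ |s|} with hS
  have hSm : MeasurableSet S := (isClosed_le continuous_const continuous_abs).measurableSet
  set P : 𝓢(ℝ, ℂ) := 𝓕⁻ (psi hs h0 b l) with hP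
  have hPH : ∀ ξ, ‖P ξ‖ = ‖H (ξ - l)‖ := fun ξ => norm_fourierInv_psi hs h0 b l ξ
  set F : 𝓢(ℝ, ℂ) := 𝓕 f with hF
  have hprod : Integrable (fun ξ => ‖F ξ‖ * ‖P ξ‖) := by
    have := (F.memLp 2).integrable_mul (P.memLp 2)
    have h := this.norm
    refine h.congr (Eventually.of_forall fun x => ?_)
    simp
  have h1 : ‖∫ y : ℝ, f y * psi hs h0 b l y‖ ≤
      (∫ ξ in S, ‖F ξ‖ * ‖P ξ‖) + ∫ ξ in Sᶜ, ‖F ξ‖ * ‖P ξ‖ := by
    rw [coef_eq, integral_add_compl hSm hprod]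
    refine (norm_integral_le_integral_norm _).trans (le_of_eq ?_)
    simp only [norm_mul]
    rfl
  have hcs : ∀ A : Set ℝ, (∫ ξ in A, ‖F ξ‖ * ‖P ξ‖) ^ 2 ≤
      (∫ ξ in A, ‖F ξ‖ ^ 2) * ∫ ξ in A, ‖P ξ‖ ^ 2 := fun A =>
    cs ((F.memLp 2).restrict A) ((P.memLp 2).restrict A)
  have hPtot : ∫ ξ, ‖P ξ‖ ^ 2 = ∫ v, ‖H v‖ ^ 2 := by
    simp only [hPH]
    exact integral_sub_right_eq_self (fun y => ‖H y‖ ^ 2) _
  have h2 : (∫ ξ in S, ‖F ξ‖ * ‖P ξ‖) ^ 2 ≤ (∫ v, ‖H v‖ ^ 2) * ∫ ξ in S, ‖F ξ‖ ^ 2 := by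
    refine (hcs S).trans ?_
    rw [mul_comm]
    refine mul_le_mul_of_nonneg_right ?_ (integral_nonneg fun a => by positivity)
    rw [← hPtot]
    exact setIntegral_le_integral (hsqi P) (Eventually.of_forall fun a => by positivity)
  have hl : (0 : ℝ) < 1 + |(l : ℝ)| := by positivity
  have h3 : ∫ ξ in Sᶜ, ‖P ξ‖ ^ 2 ≤ C₁ ^ 2 * 2 ^ (2 * r) * J * (1 / (1 + |(l : ℝ)|)) ^ (2 * r) := by
    have hb : ∀ ξ ∈ Sᶜ, ‖P ξ‖ ^ 2 ≤ (C₁ ^ 2 * 2 ^ (2 * r) * (1 / (1 + |(l : ℝ)|)) ^ (2 * r)) *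
        (1 + ‖ξ - l‖) ^ (-2 : ℝ) := by
      intro ξ hξ
      have hξ' : |ξ| < |(l : ℝ)| / 2 := not_le.1 hξ
      have h4 : |(l : ℝ)| / 2 ≤ |ξ - l| := by
        have := abs_sub_abs_le_abs_sub (l : ℝ) ξ
        rw [abs_sub_comm] at this
        linarith
      have hv : (0 : ℝ) < 1 + |ξ - l| := by positivity
      have h5 := hdec (ξ - l)
      rw [hPH]
      have h6 : ‖H (ξ - l)‖ ≤ C₁ / (1 + |ξ - l|) ^ (r + 1) := by
        rw [le_div_iff₀ (by positivity), mul_comm]; exact h5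
      have h7 : (1 + |(l : ℝ)|) / 2 ≤ 1 + |ξ - l| := by
        have : 0 ≤ |(l : ℝ)| := abs_nonneg _
        linarith
      have h8 : 1 / (1 + |ξ - l|) ≤ 2 * (1 / (1 + |(l : ℝ)|)) := by
        rw [div_le_iff₀ hv, mul_one_div, div_mul_eq_mul_div, le_div_iff₀ hl]
        linarith
      calc ‖H (ξ - l)‖ ^ 2 ≤ (C₁ / (1 + |ξ - l|) ^ (r + 1)) ^ 2 :=
            pow_le_pow_left₀ (norm_nonneg _) h6 2
        _ = C₁ ^ 2 * (1 / (1 + |ξ - l|)) ^ (2 * r) * (1 / (1 + |ξ - l|)) ^ 2 := by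
            rw [div_pow, ← pow_mul, one_div, inv_pow, inv_pow]
            field_simp
            ring
        _ ≤ C₁ ^ 2 * (2 * (1 / (1 + |(l : ℝ)|))) ^ (2 * r) * (1 / (1 + |ξ - l|)) ^ 2 := by
            refine mul_le_mul_of_nonneg_right (mul_le_mul_of_nonneg_left
              (pow_le_pow_left₀ (by positivity) h8 _) (sq_nonneg _)) (by positivity)
        _ = _ := by
            rw [mul_pow, Real.norm_eq_abs, Real.rpow_neg hv.le, Real.rpow_two, one_div (1 + |ξ - l|),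
              inv_pow]
            ring
    have hti : Integrable (fun ξ : ℝ => (1 + ‖ξ - l‖) ^ (-2 : ℝ)) := hJi.comp_sub_right _
    have hK : 0 ≤ C₁ ^ 2 * 2 ^ (2 * r) * (1 / (1 + |(l : ℝ)|)) ^ (2 * r) := by positivity
    calc ∫ ξ in Sᶜ, ‖P ξ‖ ^ 2 ≤ ∫ ξ in Sᶜ, (C₁ ^ 2 * 2 ^ (2 * r) *
          (1 / (1 + |(l : ℝ)|)) ^ (2 * r)) * (1 + ‖ξ - l‖) ^ (-2 : ℝ) :=
          setIntegral_mono_on (hsqi P).integrableOn (hti.const_mul _).integrableOn hSm.compl hb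
      _ ≤ ∫ ξ : ℝ, (C₁ ^ 2 * 2 ^ (2 * r) *
          (1 / (1 + |(l : ℝ)|)) ^ (2 * r)) * (1 + ‖ξ - l‖) ^ (-2 : ℝ) :=
          setIntegral_le_integral (hti.const_mul _)
            (Eventually.of_forall fun ξ => mul_nonneg hK (by positivity))
      _ = (C₁ ^ 2 * 2 ^ (2 * r) * (1 / (1 + |(l : ℝ)|)) ^ (2 * r)) * J := by
          rw [integral_const_mul]
          congr 1
          exact integral_sub_right_eq_self (fun v : ℝ => (1 + ‖v‖) ^ (-2 : ℝ)) _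
      _ = _ := by ring
  have hFf : ∫ ξ, ‖F ξ‖ ^ 2 = ∫ t, ‖f t‖ ^ 2 := f.integral_norm_sq_fourier
  have hf0 : 0 ≤ ∫ t, ‖f t‖ ^ 2 := integral_nonneg fun a => by positivity
  have hS0 : 0 ≤ ∫ ξ in S, ‖F ξ‖ ^ 2 := integral_nonneg fun a => by positivity
  have h4 : (∫ ξ in Sᶜ, ‖F ξ‖ * ‖P ξ‖) ^ 2 ≤
      C₁ ^ 2 * 2 ^ (2 * r) * J * ((1 / (1 + |(l : ℝ)|)) ^ (2 * r) * ∫ t, ‖f t‖ ^ 2) := by
    refine (hcs Sᶜ).trans ?_
    have h5 : ∫ ξ in Sᶜ, ‖F ξ‖ ^ 2 ≤ ∫ t, ‖f t‖ ^ 2 := by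
      rw [← hFf]
      exact setIntegral_le_integral (hsqi F) (Eventually.of_forall fun a => by positivity)
    calc (∫ ξ in Sᶜ, ‖F ξ‖ ^ 2) * ∫ ξ in Sᶜ, ‖P ξ‖ ^ 2
        ≤ (∫ t, ‖f t‖ ^ 2) * (C₁ ^ 2 * 2 ^ (2 * r) * J * (1 / (1 + |(l : ℝ)|)) ^ (2 * r)) :=
          mul_le_mul h5 h3 (integral_nonneg fun a => by positivity) hf0
      _ = _ := by ring
  set u := ∫ ξ in S, ‖F ξ‖ * ‖P ξ‖ with hu
  set w := ∫ ξ in Sᶜ, ‖F ξ‖ * ‖P ξ‖ with hw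
  set Q := (1 / (1 + |(l : ℝ)|)) ^ (2 * r) * ∫ t, ‖f t‖ ^ 2 with hQ
  have hQ0 : 0 ≤ Q := mul_nonneg (by positivity) hf0
  have hu2 : ‖∫ y : ℝ, f y * psi hs h0 b l y‖ ^ 2 ≤ 2 * u ^ 2 + 2 * w ^ 2 := by
    have := pow_le_pow_left₀ (norm_nonneg _) h1 2
    nlinarith [sq_nonneg (u - w)]
  have hx1 : 0 ≤ (∫ v, ‖H v‖ ^ 2) * Q := mul_nonneg hE0 hQ0
  have hx2 : 0 ≤ C₁ ^ 2 * 2 ^ (2 * r) * J * ∫ ξ in S, ‖F ξ‖ ^ 2 := by positivity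
  calc ‖∫ y : ℝ, f y * psi hs h0 b l y‖ ^ 2 ≤ 2 * u ^ 2 + 2 * w ^ 2 := hu2
    _ ≤ 2 * ((∫ v, ‖H v‖ ^ 2) * ∫ ξ in S, ‖F ξ‖ ^ 2) + 2 * (C₁ ^ 2 * 2 ^ (2 * r) * J * Q) := by
        linarith
    _ ≤ (2 * (∫ v, ‖H v‖ ^ 2) + 2 * (C₁ ^ 2 * 2 ^ (2 * r) * J)) *
        ((∫ ξ in S, ‖F ξ‖ ^ 2) + Q) := by
        nlinarith [hx1, hx2]

end

/-- SF-AT3. -/
theorem t_AT3 : S_AT3 := by
  intro χ θ φ c hw ha
  have hs := hw.1
  have h0 := hw.2.2.1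
  have hc : ∀ a f, c a f = ∫ y : ℝ, f y * psi hs h0 ((a.1 : ℝ) / 4) a.2 y := by
    intro a f
    rw [ha.2 a f]
    refine integral_congr_ae (Eventually.of_forall fun y => ?_)
    simp only [psi_apply]
    push_cast
    rfl
  refine ⟨⟨∫ y : ℝ, ‖psi hs h0 0 0 y‖ ^ 2, integral_nonneg fun a => by positivity, ?_⟩, ?_⟩
  · intro a f hk
    rw [hc]
    exact part1 hs h0 f a.1 a.2 hk
  · intro r
    obtain ⟨C, hC, h⟩ := part2 hs h0 r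
    refine ⟨C, hC, fun a f => ?_⟩
    rw [hc]
    exact h f _ a.2

end Q275.SF
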