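import Pool.Agent.Q249.SF.Stm

set_option autoImplicit false

/-!
Project SF, job WTS: the two weights.
-/

namespace Q275.SF

open MeasureTheory Real Set Filter Topology Q249.SF

/-- The general weight. -/
noncomputable def W (C e a N : ℝ) (r : ℕ) (x : ℝ) : ℝ := C * (x ^ 2) ^ e * cut a N x ^ (2 * r)

theorem cut_nonneg {a N : ℝ} (hN : 1 ≤ N) (x : ℝ) : 0 ≤ cut a N x := by
  unfold cut
  exact le_min zero_le_one (div_nonneg (Real.rpow_nonneg (abs_nonneg _) _) (by linarith))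

theorem cut_mono {a N : ℝ} (ha : 0 ≤ a) (hN : 1 ≤ N) {x y : ℝ} (h : |x| ≤ |y|) :
    cut a N x ≤ cut a N y := by
  unfold cut
  refine min_le_min_left _ ?_
  exact div_le_div_of_nonneg_right (Real.rpow_le_rpow (abs_nonneg _) h ha) (by linarith)

theorem cut_mul {a N c x : ℝ} (ha : 0 ≤ a) (_hN : 1 ≤ N) (hc : 1 ≤ c) :
    cut a N (c * x) ≤ c ^ a * cut a N x := by
  unfold cut
  have hc0 : 0 ≤ c := by linarith
  have h1 : 1 ≤ c ^ a := Real.one_le_rpow hc ha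
  rw [abs_mul, abs_of_nonneg hc0, Real.mul_rpow hc0 (abs_nonneg _)]
  rcases le_total 1 (|x| ^ a / N) with h | h
  · rw [min_eq_left h, mul_one]
    exact (min_le_left _ _).trans h1
  · rw [min_eq_right h]
    refine (min_le_right _ _).trans (le_of_eq ?_)
    ring

theorem slope_W {C e a N α : ℝ} {r K : ℕ} (hC : 0 ≤ C) (he : 0 ≤ e) (he1 : e ≤ 1) (ha : 0 ≤ a)
    (haα : a ≤ α + 1) (hN : 1 ≤ N) (hK : 2 + 2 * (r : ℝ) * (α + 1) ≤ K) : Slope K (W C e a N r) := by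
  have hN0 : (0 : ℝ) < N := by linarith
  refine ⟨?_, ?_, ?_, ?_⟩
  · unfold W cut
    refine (continuous_const.mul ?_).mul ((continuous_const.min ?_).pow _)
    · exact (continuous_id.pow 2).rpow_const fun x => Or.inr he
    · exact (continuous_abs.rpow_const fun x => Or.inr ha).div_const _
  · intro x
    unfold W
    exact mul_nonneg (mul_nonneg hC (Real.rpow_nonneg (sq_nonneg _) _)) (pow_nonneg (cut_nonneg hN x) _)
  · intro x y h
    unfold W
    have h1 : (x ^ 2) ^ e ≤ (y ^ 2) ^ e := Real.rpow_le_rpow (sq_nonneg _) (sq_le_sq.2 h) he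
    have h2 : cut a N x ^ (2 * r) ≤ cut a N y ^ (2 * r) :=
      pow_le_pow_left₀ (cut_nonneg hN x) (cut_mono ha hN h) _
    exact mul_le_mul (mul_le_mul_of_nonneg_left h1 hC) h2 (pow_nonneg (cut_nonneg hN x) _)
      (mul_nonneg hC (Real.rpow_nonneg (sq_nonneg _) _))
  · intro c x hc
    have hc0 : 0 < c := by linarith
    unfold W
    have h1 : ((c * x) ^ 2) ^ e = c ^ (2 * e) * (x ^ 2) ^ e := by
      rw [mul_pow, Real.mul_rpow (sq_nonneg _) (sq_nonneg _), Real.rpow_mul hc0.le,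
        Real.rpow_two]
    have h2 : cut a N (c * x) ^ (2 * r) ≤ (c ^ a) ^ (2 * r) * cut a N x ^ (2 * r) := by
      rw [← mul_pow]
      exact pow_le_pow_left₀ (cut_nonneg hN _) (cut_mul ha hN hc) _
    have h3 : (c ^ a) ^ (2 * r) = c ^ (a * (2 * (r : ℝ))) := by
      rw [Real.rpow_mul hc0.le, ← Real.rpow_natCast]
      push_cast
      rfl
    have h4 : c ^ (2 * e) * c ^ (a * (2 * (r : ℝ))) ≤ c ^ K := by
      rw [← Real.rpow_add hc0, ← Real.rpow_natCast]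
      refine Real.rpow_le_rpow_of_exponent_le hc ?_
      have h5 : a * (2 * (r : ℝ)) ≤ 2 * (r : ℝ) * (α + 1) := by
        have := mul_le_mul_of_nonneg_right haα (by positivity : (0 : ℝ) ≤ 2 * (r : ℝ))
        linarith
      linarith
    have h6 : 0 ≤ C * (x ^ 2) ^ e * cut a N x ^ (2 * r) :=
      mul_nonneg (mul_nonneg hC (Real.rpow_nonneg (sq_nonneg _) _))
        (pow_nonneg (cut_nonneg hN x) _)
    calc C * ((c * x) ^ 2) ^ e * cut a N (c * x) ^ (2 * r)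
        ≤ C * ((c * x) ^ 2) ^ e * ((c ^ a) ^ (2 * r) * cut a N x ^ (2 * r)) :=
          mul_le_mul_of_nonneg_left h2 (mul_nonneg hC (Real.rpow_nonneg (sq_nonneg _) _))
      _ = (c ^ (2 * e) * c ^ (a * (2 * (r : ℝ)))) * (C * (x ^ 2) ^ e * cut a N x ^ (2 * r)) := by
          rw [h1, h3]; ring
      _ ≤ c ^ K * (C * (x ^ 2) ^ e * cut a N x ^ (2 * r)) := mul_le_mul_of_nonneg_right h4 h6

/-- The tangent line inequality. -/
theorem tangent {γ δ P Q U₁ U₂ : ℝ} (hγ : 0 < γ) (hγ1 : γ ≤ 1) (hδ : γ * δ = 1) (hP : 0 ≤ P)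
    (hQ : 0 ≤ Q) (hU₁ : 0 ≤ U₁) (h1 : Q ≤ P → U₂ ≤ U₁) (h2 : P ≤ Q → U₁ ≤ U₂) :
    δ * P ^ (1 - γ) * U₁ * Q ^ γ + U₂ * P ≤ δ * P ^ (1 - γ) * U₁ * P ^ γ + U₂ * Q := by
  have hδ0 : 0 < δ := by
    by_contra h
    have : γ * δ ≤ 0 := mul_nonpos_of_nonneg_of_nonpos hγ.le (not_lt.1 h)
    linarith
  have e1 : P ^ (1 - γ) * P ^ γ = P := by
    rw [← Real.rpow_add_of_nonneg hP (by linarith) hγ.le]
    simp
  have h3 : P ^ (1 - γ) * Q ^ γ ≤ (1 - γ) * P + γ * Q :=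
    Real.geom_mean_le_arith_mean2_weighted (by linarith) hγ.le hP hQ (by ring)
  have h4 : δ * U₁ * (P ^ (1 - γ) * Q ^ γ) ≤ δ * U₁ * ((1 - γ) * P + γ * Q) :=
    mul_le_mul_of_nonneg_left h3 (mul_nonneg hδ0.le hU₁)
  have e2 : δ * P ^ (1 - γ) * U₁ * Q ^ γ = δ * U₁ * (P ^ (1 - γ) * Q ^ γ) := by ring
  have e3 : δ * P ^ (1 - γ) * U₁ * P ^ γ = δ * U₁ * P := by
    calc δ * P ^ (1 - γ) * U₁ * P ^ γ = δ * U₁ * (P ^ (1 - γ) * P ^ γ) := by ring
      _ = _ := by rw [e1]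
  have e4 : δ * U₁ * ((1 - γ) * P + γ * Q) = δ * U₁ * P + U₁ * (Q - P) := by
    have : δ * U₁ * ((1 - γ) * P + γ * Q) = δ * U₁ * P + (γ * δ) * U₁ * (Q - P) := by ring
    rw [this, hδ, one_mul]
  rw [e2, e3]
  rw [e4] at h4
  rcases le_total Q P with h | h
  · nlinarith [mul_nonneg (sub_nonneg.2 (h1 h)) (sub_nonneg.2 h)]
  · nlinarith [mul_nonneg (sub_nonneg.2 (h2 h)) (sub_nonneg.2 h)]

theorem abs_rpow_two (x γ : ℝ) : |x| ^ (2 * γ) = (x ^ 2) ^ γ := by
  rw [Real.rpow_mul (abs_nonneg _), Real.rpow_two, sq_abs]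

theorem sq_rpow_inv {α β : ℝ} (h : α * β = 1) (x : ℝ) : ((x ^ 2) ^ β) ^ α = x ^ 2 := by
  rw [← Real.rpow_mul (sq_nonneg _), mul_comm, h, Real.rpow_one]

theorem rpow_sq (x α : ℝ) : (|x| ^ α) ^ 2 = (x ^ 2) ^ α := by
  rw [← sq_abs x, ← Real.rpow_two, ← Real.rpow_two, ← Real.rpow_mul (abs_nonneg _),
    ← Real.rpow_mul (abs_nonneg _), mul_comm]

/-- Comparison of the two cut functions. -/
theorem cut_cmp {α N x ξ : ℝ} (hN : 1 ≤ N) :
    ((x ^ 2) ^ α ≤ ξ ^ 2 → cut α N x ≤ cut 1 N ξ) ∧ (ξ ^ 2 ≤ (x ^ 2) ^ α → cut 1 N ξ ≤ cut α N x) := by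
  have hN0 : (0 : ℝ) ≤ N := by linarith
  unfold cut
  rw [Real.rpow_one]
  constructor
  · intro h
    refine min_le_min_left _ (div_le_div_of_nonneg_right ?_ hN0)
    rw [← rpow_sq, ← sq_abs ξ] at h
    exact le_of_sq_le_sq h (abs_nonneg _)
  · intro h
    refine min_le_min_left _ (div_le_div_of_nonneg_right ?_ hN0)
    rw [← rpow_sq, ← sq_abs ξ] at h
    exact le_of_sq_le_sq h (Real.rpow_nonneg (abs_nonneg _) _)
where
  le_of_sq_le_sq {a b : ℝ} (h : a ^ 2 ≤ b ^ 2) (hb : 0 ≤ b) : a ≤ b := by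
    exact le_trans (le_abs_self a) ((sq_le_sq.1 h).trans (le_of_eq (abs_of_nonneg hb)))

theorem cut_one_eq {a N x : ℝ} (hN : 1 ≤ N) (h : N ≤ |x| ^ a) : cut a N x = 1 := by
  unfold cut
  refine min_eq_left ?_
  rw [le_div_iff₀ (by linarith), one_mul]
  exact h

theorem cut_at_one {a N : ℝ} (hN : 1 ≤ N) : cut a N 1 = 1 / N := by
  unfold cut
  rw [abs_one, Real.one_rpow]
  exact min_eq_right (by rw [div_le_one (by linarith)]; exact hN)

theorem up_W {C e a N γ x : ℝ} {r : ℕ} (he : 0 ≤ e) (hγ : 0 ≤ γ) :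
    up γ (W C e a N r) x = C * (x ^ 2) ^ (e + γ) * cut a N x ^ (2 * r) := by
  unfold up W
  rw [abs_rpow_two, Real.rpow_add_of_nonneg (sq_nonneg _) he hγ]
  ring

theorem one_le_sq_rpow {x γ : ℝ} (h : 1 ≤ |x|) (hγ : 0 ≤ γ) : 1 ≤ (x ^ 2) ^ γ := by
  refine Real.one_le_rpow ?_ hγ
  rw [← sq_abs]
  exact one_le_pow₀ h

theorem sq_rpow_le {x γ δ : ℝ} (hγ : 0 ≤ γ) (hδ : γ ≤ 1 + δ) :
    (x ^ 2) ^ γ ≤ (1 + |x|) ^ (2 + 2 * δ) := by
  rw [← abs_rpow_two]
  calc |x| ^ (2 * γ) ≤ (1 + |x|) ^ (2 * γ) :=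
        Real.rpow_le_rpow (abs_nonneg _) (by linarith) (by linarith)
    _ ≤ (1 + |x|) ^ (2 + 2 * δ) :=
        Real.rpow_le_rpow_of_exponent_le (by linarith [abs_nonneg x]) (by linarith)

/-- SF-WTS. -/
theorem t_WTS : S_WTS := by
  intro α β hα hαβ r
  have hβ : 0 < β := by
    by_contra h
    have : α * β ≤ 0 := mul_nonpos_of_nonneg_of_nonpos hα.le (not_lt.1 h)
    linarith
  have hβα : β * α = 1 := by rw [mul_comm]; exact hαβ
  obtain ⟨K, hK⟩ := exists_nat_ge (2 + 2 * (r : ℝ) * (α + 1))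
  refine ⟨K, fun N hN => ?_⟩
  have hN0 : 0 < N := by linarith
  have hinv : 0 ≤ (1 / N) ^ (2 * r) := by positivity
  rcases le_total α 1 with hα1 | hα1
  · have hβ1 : 1 ≤ β := by nlinarith
    refine ⟨W β (1 - α) α N r, W 1 0 1 N r,
      slope_W hβ.le (by linarith) (by linarith) hα.le (by linarith) hN hK,
      slope_W zero_le_one le_rfl zero_le_one zero_le_one (by linarith) hN hK, ?_, ?_, ?_, ?_, ?_,
      ?_, ?_⟩
    · intro x ξ
      have hc := cut_cmp (α := α) (x := x) (ξ := ξ) hN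
      have hmono : ∀ {P Q : ℝ}, 0 ≤ P → 0 ≤ Q → (P ≤ Q ↔ P ^ α ≤ Q ^ α) := fun hP hQ =>
        (Real.rpow_le_rpow_iff hP hQ hα).symm
      have hQ0 : 0 ≤ (ξ ^ 2) ^ β := Real.rpow_nonneg (sq_nonneg _) _
      have h := tangent (γ := α) (δ := β) (P := x ^ 2) (Q := (ξ ^ 2) ^ β)
        (U₁ := cut α N x ^ (2 * r)) (U₂ := cut 1 N ξ ^ (2 * r)) hα hα1 hαβ (sq_nonneg _) hQ0
        (pow_nonneg (cut_nonneg hN x) _)
        (fun h => by
          rw [hmono hQ0 (sq_nonneg _), sq_rpow_inv hαβ] at h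
          exact pow_le_pow_left₀ (cut_nonneg hN _) (hc.2 h) _)
        (fun h => by
          rw [hmono (sq_nonneg _) hQ0, sq_rpow_inv hαβ] at h
          exact pow_le_pow_left₀ (cut_nonneg hN _) (hc.1 h) _)
      rw [sq_rpow_inv hαβ] at h
      unfold up W
      rw [abs_rpow_two, abs_rpow_two, Real.rpow_zero]
      linarith
    · intro x hx1 hx2
      rw [up_W (by linarith) hα.le, cut_one_eq hN hx2, one_pow, mul_one]
      have := one_le_sq_rpow hx1 (by linarith : (0 : ℝ) ≤ 1 - α + α)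
      nlinarith
    · intro ξ hx1 hx2
      rw [up_W le_rfl hβ.le, cut_one_eq hN (by rw [Real.rpow_one]; exact hx2), one_pow, mul_one,
        one_mul]
      exact one_le_sq_rpow hx1 (by linarith)
    · intro x
      rw [up_W (by linarith) hα.le]
      have h1 := sq_rpow_le (x := x) (γ := 1 - α + α) (δ := α) (by linarith) (by linarith)
      have h2 : β * (x ^ 2) ^ (1 - α + α) ≤ (α + β) * (1 + |x|) ^ (2 + 2 * α) :=
        mul_le_mul (by linarith) h1 (Real.rpow_nonneg (sq_nonneg _) _) (by linarith)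
      exact mul_le_mul_of_nonneg_right h2 (pow_nonneg (cut_nonneg hN x) _)
    · intro ξ
      rw [up_W le_rfl hβ.le]
      have h1 := sq_rpow_le (x := ξ) (γ := 0 + β) (δ := β) (by linarith) (by linarith)
      have h2 : 1 * (ξ ^ 2) ^ (0 + β) ≤ (α + β) * (1 + |ξ|) ^ (2 + 2 * β) :=
        mul_le_mul (by linarith) h1 (Real.rpow_nonneg (sq_nonneg _) _) (by linarith)
      exact mul_le_mul_of_nonneg_right h2 (pow_nonneg (cut_nonneg hN ξ) _)
    · unfold W
      rw [cut_at_one hN, one_pow, Real.one_rpow, mul_one]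
      exact mul_le_mul_of_nonneg_right (by linarith) hinv
    · unfold W
      rw [cut_at_one hN, one_pow, Real.one_rpow, mul_one]
      exact mul_le_mul_of_nonneg_right (by linarith) hinv
  · have hβ1 : β ≤ 1 := by nlinarith
    refine ⟨W 1 0 α N r, W α (1 - β) 1 N r,
      slope_W zero_le_one le_rfl zero_le_one hα.le (by linarith) hN hK,
      slope_W hα.le (by linarith) (by linarith) zero_le_one (by linarith) hN hK, ?_, ?_, ?_, ?_, ?_,
      ?_, ?_⟩
    · intro x ξ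
      have hc := cut_cmp (α := α) (x := x) (ξ := ξ) hN
      have hQ0 : 0 ≤ (x ^ 2) ^ α := Real.rpow_nonneg (sq_nonneg _) _
      have h := tangent (γ := β) (δ := α) (P := ξ ^ 2) (Q := (x ^ 2) ^ α)
        (U₁ := cut 1 N ξ ^ (2 * r)) (U₂ := cut α N x ^ (2 * r)) hβ hβ1 hβα (sq_nonneg _) hQ0
        (pow_nonneg (cut_nonneg hN ξ) _)
        (fun h => pow_le_pow_left₀ (cut_nonneg hN _) (hc.1 h) _)
        (fun h => pow_le_pow_left₀ (cut_nonneg hN _) (hc.2 h) _)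
      rw [sq_rpow_inv hβα] at h
      unfold up W
      rw [abs_rpow_two, abs_rpow_two, Real.rpow_zero]
      linarith
    · intro x hx1 hx2
      rw [up_W le_rfl hα.le, cut_one_eq hN hx2, one_pow, mul_one, one_mul]
      exact one_le_sq_rpow hx1 (by linarith)
    · intro ξ hx1 hx2
      rw [up_W (by linarith) hβ.le, cut_one_eq hN (by rw [Real.rpow_one]; exact hx2), one_pow,
        mul_one]
      have := one_le_sq_rpow hx1 (by linarith : (0 : ℝ) ≤ 1 - β + β)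
      nlinarith
    · intro x
      rw [up_W le_rfl hα.le]
      have h1 := sq_rpow_le (x := x) (γ := 0 + α) (δ := α) (by linarith) (by linarith)
      have h2 : 1 * (x ^ 2) ^ (0 + α) ≤ (α + β) * (1 + |x|) ^ (2 + 2 * α) :=
        mul_le_mul (by linarith) h1 (Real.rpow_nonneg (sq_nonneg _) _) (by linarith)
      exact mul_le_mul_of_nonneg_right h2 (pow_nonneg (cut_nonneg hN x) _)
    · intro ξ
      rw [up_W (by linarith) hβ.le]
      have h1 := sq_rpow_le (x := ξ) (γ := 1 - β + β) (δ := β) (by linarith) (by linarith)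
      have h2 : α * (ξ ^ 2) ^ (1 - β + β) ≤ (α + β) * (1 + |ξ|) ^ (2 + 2 * β) :=
        mul_le_mul (by linarith) h1 (Real.rpow_nonneg (sq_nonneg _) _) (by linarith)
      exact mul_le_mul_of_nonneg_right h2 (pow_nonneg (cut_nonneg hN ξ) _)
    · unfold W
      rw [cut_at_one hN, one_pow, Real.one_rpow, mul_one]
      exact mul_le_mul_of_nonneg_right (by linarith) hinv
    · unfold W
      rw [cut_at_one hN, one_pow, Real.one_rpow, mul_one]
      exact mul_le_mul_of_nonneg_right (by linarith) hinv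

end Q275.SF
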